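import Pool.Agent.Z700.Defs3
import Pool.Agent.Y574.Z7.C2

/-!
# Z701-C2 (helper949): evaluation of the divisor sums, general family
Adaptation of helper574's proof for the first stage.
-/

set_option autoImplicit false

namespace Pool.Agent.Y949.Z7

open Finset Pool.Agent.Z701
open Pool.Agent.Z700 (chi3 pr fac hh psp ps3)
open Pool.Agent.Y574.Z7 (div_split sum_local chp chp_mul chp_one chp_self chp_nd chp_sq chp_pm jac_eq chi3_eq
  Psi Psi_one Psi_mul Psi_pow Psi_prod Psi_fac jac_prod chp_prod wq dvd_fac psp_eq ps3_eq alt_sum one_sum two_pt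
  nd4 fac_D fac_D2 chp_D mem_D)

/-- the primes of the general family -/
def Fg (p : ℕ) : Prop := Sp p ∨ Nr p

theorem Fg.pr {p : ℕ} (h : Fg p) : p.Prime := by
  rcases h with h | h
  · exact h.1
  · exact h.1

theorem Fg.m4 {p : ℕ} (h : Fg p) : p % 4 = 1 := by
  rcases h with h | h
  · have := h.2.1; omega
  · have := h.2.1; omega

theorem Fg.m7 {p : ℕ} (h : Fg p) : p % 7 ≠ 0 := by
  rcases h with h | h
  · have := h.2.2; omega
  · have := h.2.2; omega

theorem Psi_pm {P : Finset ℕ} (hP : ∀ p ∈ P, Fg p) {n : ℕ} (hn : n ≠ 0) : Psi P n = 1 ∨ Psi P n = -1 := by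
  have h : Psi P n * Psi P n = 1 := by
    unfold Psi
    rw [← Finset.prod_mul_distrib]
    refine Finset.prod_eq_one fun q hq => ?_
    rcases Finset.mem_insert.1 hq with rfl | hq
    · exact chp_sq Nat.prime_three hn
    · exact chp_sq (hP q hq).pr hn
  exact mul_self_eq_one_iff.1 h

/-! ### elementary facts on the primes of the family -/

theorem fne2 {p : ℕ} (h : Fg p) : p ≠ 2 := by rintro rfl; have := h.m4; omega

theorem fne3 {p : ℕ} (h : Fg p) : p ≠ 3 := by rintro rfl; have := h.m4; omega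

theorem fne7 {p : ℕ} (h : Fg p) : p ≠ 7 := by rintro rfl; have := h.m4; omega

theorem three_notMem {P : Finset ℕ} (hP : ∀ p ∈ P, Fg p) : 3 ∉ P := fun h => (fne3 (hP 3 h)) rfl

theorem pr_pos {P : Finset ℕ} (hP : ∀ p ∈ P, Fg p) : 0 < pr P :=
  Finset.prod_pos fun p hp => (hP p hp).pr.pos

theorem pr_mod {P : Finset ℕ} (hP : ∀ p ∈ P, Fg p) : pr P % 4 = 1 := by
  classical
  induction P using Finset.induction_on with
  | empty => rfl
  | insert p P hp ih =>
    have h1 := ih fun q hq => hP q (Finset.mem_insert_of_mem hq)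
    have h2 := (hP p (Finset.mem_insert_self _ _)).m4
    unfold pr at h1 ⊢
    rw [Finset.prod_insert hp, Nat.mul_mod, h1, h2]

theorem seven_nd {P : Finset ℕ} (hP : ∀ p ∈ P, Fg p) : ¬ 7 ∣ pr P := by
  intro h
  obtain ⟨p, hp, hd⟩ := (Prime.dvd_finsetProd_iff (by norm_num : Nat.Prime 7).prime _).1 h
  exact (fne7 (hP p hp)) ((Nat.prime_dvd_prime_iff_eq (by norm_num) (hP p hp).pr).1 hd).symm

theorem prime_dvd_pr {P : Finset ℕ} (hP : ∀ p ∈ P, Fg p) {q : ℕ} (hq : q.Prime) : q ∣ pr P ↔ q ∈ P := by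
  constructor
  · intro h
    obtain ⟨p, hp, hd⟩ := (Prime.dvd_finsetProd_iff hq.prime _).1 h
    rwa [(Nat.prime_dvd_prime_iff_eq hq (hP p hp).pr).1 hd]
  · exact fun h => Finset.dvd_prod_of_mem _ h

/-- exactly one factor `q` in `3 m` -/
theorem sq_nd {P : Finset ℕ} (hP : ∀ p ∈ P, Fg p) {q : ℕ} (hq : q ∈ insert 3 P) : ¬ q * q ∣ 3 * pr P := by
  rcases Finset.mem_insert.1 hq with rfl | hq
  · intro h
    have h1 : 3 ∣ pr P := Nat.dvd_of_mul_dvd_mul_left (by norm_num) h
    exact three_notMem hP ((prime_dvd_pr hP Nat.prime_three).1 h1)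
  · intro h
    have hp := (hP q hq).pr
    have h1 : 3 * pr P = q * (3 * ∏ p ∈ P.erase q, p) := by
      unfold pr
      rw [← Finset.mul_prod_erase P _ hq]
      ring
    rw [h1] at h
    have h2 : q ∣ 3 * ∏ p ∈ P.erase q, p := Nat.dvd_of_mul_dvd_mul_left hp.pos h
    rcases (Nat.Prime.dvd_mul hp).1 h2 with h3 | h3
    · exact (fne3 (hP q hq)) ((Nat.prime_dvd_prime_iff_eq hp Nat.prime_three).1 h3)
    · obtain ⟨r, hr, hd⟩ := (Prime.dvd_finsetProd_iff hp.prime _).1 h3
      have hr2 := Finset.mem_erase.1 hr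
      exact hr2.1 ((Nat.prime_dvd_prime_iff_eq hp (hP r hr2.2).pr).1 hd).symm

theorem mem_prime {P : Finset ℕ} (hP : ∀ p ∈ P, Fg p) {q : ℕ} (hq : q ∈ insert 3 P) : q.Prime := by
  rcases Finset.mem_insert.1 hq with rfl | hq
  · exact Nat.prime_three
  · exact (hP q hq).pr

theorem mem_dvd {P : Finset ℕ} {q : ℕ} (hq : q ∈ insert 3 P) : q ∣ 3 * pr P := by
  rcases Finset.mem_insert.1 hq with rfl | hq
  · exact Dvd.intro _ rfl
  · exact (Finset.dvd_prod_of_mem (fun p => p) hq).mul_left 3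

theorem prime_dvd_3pr {P : Finset ℕ} (hP : ∀ p ∈ P, Fg p) {q : ℕ} (hq : q.Prime) :
    q ∣ 3 * pr P ↔ q ∈ insert 3 P := by
  constructor
  · intro h
    rcases (Nat.Prime.dvd_mul hq).1 h with h | h
    · rw [(Nat.prime_dvd_prime_iff_eq hq Nat.prime_three).1 h]; exact Finset.mem_insert_self _ _
    · exact Finset.mem_insert_of_mem ((prime_dvd_pr hP hq).1 h)
  · exact mem_dvd

/-! ### values of the symbols -/

theorem jac_prod (a : ℤ) (s : Finset ℕ) (h : ∀ q ∈ s, q ≠ 0) :
    jacobiSym a (∏ q ∈ s, q) = ∏ q ∈ s, jacobiSym a q := by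
  classical
  induction s using Finset.induction_on with
  | empty => rw [Finset.prod_empty, Finset.prod_empty, jacobiSym.one_right]
  | insert l s hl ih =>
    rw [Finset.prod_insert hl, Finset.prod_insert hl, jacobiSym.mul_right' a
      (h l (Finset.mem_insert_self _ _)) (Finset.prod_ne_zero_iff.2 fun q hq =>
        h q (Finset.mem_insert_of_mem hq)), ih fun q hq => h q (Finset.mem_insert_of_mem hq)]

theorem prod_insert3 {P : Finset ℕ} (hP : ∀ p ∈ P, Fg p) : ∏ q ∈ insert 3 P, q = 3 * pr P := by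
  rw [Finset.prod_insert (three_notMem hP)]; rfl

/-- the value of `Psi` away from `3 m` -/
theorem Psi_nd {P : Finset ℕ} (hP : ∀ p ∈ P, Fg p) {n : ℕ} (h : ∀ q ∈ insert 3 P, ¬ q ∣ n) :
    Psi P n = jacobiSym n (3 * pr P) := by
  rw [← prod_insert3 hP, jac_prod _ _ fun q hq => (mem_prime hP hq).ne_zero]
  unfold Psi
  exact Finset.prod_congr rfl fun q hq => chp_nd (h q hq)

theorem odd_3pr {P : Finset ℕ} (hP : ∀ p ∈ P, Fg p) : Odd (3 * pr P) := by
  have := pr_mod hP
  rw [Nat.odd_iff]; omega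

/-- reciprocity -/
theorem recip {P : Finset ℕ} (hP : ∀ p ∈ P, Fg p) {l : ℕ} (hl : Odd l) :
    jacobiSym (-((3 * pr P : ℕ) : ℤ)) l = jacobiSym l (3 * pr P) := by
  have hm := pr_mod hP
  have h4 : (3 * pr P) % 4 = 3 := by omega
  rw [jacobiSym.neg _ hl]
  have h2 : l % 4 = 1 ∨ l % 4 = 3 := by
    rw [Nat.odd_iff] at hl; omega
  rcases h2 with h2 | h2
  · rw [ZMod.χ₄_nat_one_mod_four h2, one_mul, jacobiSym.quadratic_reciprocity_one_mod_four' (odd_3pr hP) h2]
  · rw [ZMod.χ₄_nat_three_mod_four h2, jacobiSym.quadratic_reciprocity_three_mod_four h4 h2]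
    ring

theorem Psi_l {P : Finset ℕ} (hP : ∀ p ∈ P, Fg p) {l : ℕ} (hl : l.Prime) (h2 : l ≠ 2)
    (h : l ∉ insert 3 P) : Psi P l = jacobiSym (-((3 * pr P : ℕ) : ℤ)) l := by
  rw [recip hP (hl.odd_of_ne_two h2), Psi_nd hP]
  intro q hq hd
  rw [(Nat.prime_dvd_prime_iff_eq (mem_prime hP hq) hl).1 hd] at hq
  exact h hq

theorem jac2 {p : ℕ} (h : Fg p) : jacobiSym 2 p = if p % 8 = 5 then -1 else 1 := by
  have hp := h.pr.odd_of_ne_two (fne2 h)
  rw [jacobiSym.at_two hp, ZMod.χ₈_nat_eq_if_mod_eight]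
  rcases h with h | h
  · have := h.2.1
    rw [if_neg (by omega), if_pos (by left; omega), if_neg (by omega)]
  · have := h.2.1
    rw [if_neg (by omega), if_neg (by omega), if_pos (by omega)]

theorem jac7 {p : ℕ} (h : Fg p) : jacobiSym 7 p = if p % 8 = 5 then -1 else 1 := by
  have h4 := h.m4
  have h1 := jacobiSym.quadratic_reciprocity_one_mod_four' (a := 7) (b := p) (by decide) (by omega)
  have h2 : jacobiSym (p : ℤ) 7 = if p % 8 = 5 then -1 else 1 := by
    rw [jacobiSym.mod_left]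
    rcases h with h | h
    · have := h.2.1
      rw [if_neg (by omega)]
      rcases h.2.2 with h3 | h3 | h3
      · have : (p : ℤ) % ((7 : ℕ) : ℤ) = 1 := by omega
        rw [this]; norm_num
      · have : (p : ℤ) % ((7 : ℕ) : ℤ) = 2 := by omega
        rw [this]; norm_num
      · have : (p : ℤ) % ((7 : ℕ) : ℤ) = 4 := by omega
        rw [this]; norm_num
    · have := h.2.1
      rw [if_pos (by omega)]
      rcases h.2.2 with h3 | h3 | h3
      · have : (p : ℤ) % ((7 : ℕ) : ℤ) = 3 := by omega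
        rw [this]; norm_num
      · have : (p : ℤ) % ((7 : ℕ) : ℤ) = 5 := by omega
        rw [this]; norm_num
      · have : (p : ℤ) % ((7 : ℕ) : ℤ) = 6 := by omega
        rw [this]; norm_num
  rw [← h2, ← h1]; rfl

/-- the number of inert primes is even -/
theorem even_prod {P : Finset ℕ} (hE : Even (inr P).card) :
    ∏ p ∈ P, (if p % 8 = 5 then (-1 : ℤ) else 1) = 1 := by
  rw [Finset.prod_ite, Finset.prod_const, Finset.prod_const_one, mul_one]
  exact hE.neg_one_pow

theorem Psi_two {P : Finset ℕ} (hP : ∀ p ∈ P, Fg p) (hE : Even (inr P).card) : Psi P 2 = -1 := by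
  unfold Psi
  rw [Finset.prod_insert (three_notMem hP), chp_nd (by norm_num)]
  have h1 : ∏ p ∈ P, chp p 2 = ∏ p ∈ P, (if p % 8 = 5 then (-1 : ℤ) else 1) := by
    refine Finset.prod_congr rfl fun p hp => ?_
    rw [chp_nd (fun hd => (fne2 (hP p hp)) ((Nat.prime_dvd_prime_iff_eq (hP p hp).pr Nat.prime_two).1 hd))]
    exact jac2 (hP p hp)
  rw [h1, even_prod hE]
  norm_num

theorem Psi_seven {P : Finset ℕ} (hP : ∀ p ∈ P, Fg p) (hE : Even (inr P).card) : Psi P 7 = 1 := by
  unfold Psi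
  rw [Finset.prod_insert (three_notMem hP), chp_nd (by norm_num)]
  have h1 : ∏ p ∈ P, chp p 7 = ∏ p ∈ P, (if p % 8 = 5 then (-1 : ℤ) else 1) := by
    refine Finset.prod_congr rfl fun p hp => ?_
    rw [chp_nd (fun hd => (fne7 (hP p hp)) ((Nat.prime_dvd_prime_iff_eq (hP p hp).pr (by norm_num)).1 hd))]
    exact jac7 (hP p hp)
  rw [h1, even_prod hE]
  norm_num

/-- reciprocity for the primes of the family -/
theorem Psi_p {P : Finset ℕ} (hP : ∀ p ∈ P, Fg p) {l : ℕ} (hl : l ∈ P) : Psi P l = chp l (3 * pr P) := by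
  rw [← prod_insert3 hP, chp_prod]
  unfold Psi
  refine Finset.prod_congr rfl fun q hq => ?_
  have hlp := hP l hl
  have h24 := hlp.m4
  rcases eq_or_ne q l with rfl | hne
  · rfl
  · have h1 : ¬ q ∣ l := fun h => hne ((Nat.prime_dvd_prime_iff_eq (mem_prime hP hq) hlp.pr).1 h)
    have h2 : ¬ l ∣ q := fun h => hne ((Nat.prime_dvd_prime_iff_eq hlp.pr (mem_prime hP hq)).1 h).symm
    rw [chp_nd h1, chp_nd h2]
    have hqo : Odd q := by
      rcases Finset.mem_insert.1 hq with rfl | hq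
      · decide
      · exact (hP q hq).pr.odd_of_ne_two (fne2 (hP q hq))
    exact jacobiSym.quadratic_reciprocity_one_mod_four (by omega) hqo

/-- the value at three -/
theorem Psi_three' {P : Finset ℕ} (hP : ∀ p ∈ P, Fg p) : Psi P 3 = chp 3 (3 * pr P) := by
  rw [← prod_insert3 hP, chp_prod]
  unfold Psi
  refine Finset.prod_congr rfl fun q hq => ?_
  rcases Finset.mem_insert.1 hq with rfl | hq
  · rfl
  · have hne := fne3 (hP q hq)
    have h1 : ¬ q ∣ 3 := fun h => hne ((Nat.prime_dvd_prime_iff_eq (hP q hq).pr Nat.prime_three).1 h)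
    have h2 : ¬ 3 ∣ q := fun h => hne ((Nat.prime_dvd_prime_iff_eq Nat.prime_three (hP q hq).pr).1 h).symm
    rw [chp_nd h1, chp_nd h2]
    exact jacobiSym.quadratic_reciprocity_one_mod_four' (by decide) (hP q hq).m4

theorem pr_chp {P : Finset ℕ} (hP : ∀ p ∈ P, Fg p) : chp 3 (3 * pr P) = chi3 (pr P) := by
  have h3 : ¬ 3 ∣ pr P := fun h => three_notMem hP ((prime_dvd_pr hP Nat.prime_three).1 h)
  rw [chp_mul, chp_self Nat.prime_three, one_mul, chp_nd h3, chi3_eq]

/-- all the primes -/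
def QQ (P : Finset ℕ) (S T : ℕ) : Finset ℕ := insert 2 (insert 7 (insert 3 P ∪ (S * T).primeFactors))

/-- the local weights -/
def Wl (P : Finset ℕ) (S T l i j : ℕ) : ℤ :=
  Psi P l ^ (i + j) * (if l ∈ insert 3 P then wq S T l i j else 1) *
    (if l = 2 then (if 1 ≤ i then 1 else 0) else 1) * (if l = 7 then (if 1 ≤ j then 1 else 0) else 1)

theorem mem_QQ2 {P : Finset ℕ} {S T : ℕ} : 2 ∈ QQ P S T := Finset.mem_insert_self _ _

theorem mem_QQ7 {P : Finset ℕ} {S T : ℕ} : 7 ∈ QQ P S T :=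
  Finset.mem_insert_of_mem (Finset.mem_insert_self _ _)

theorem sub_QQ {P : Finset ℕ} {S T : ℕ} : insert 3 P ⊆ QQ P S T := fun _ hq =>
  Finset.mem_insert_of_mem (Finset.mem_insert_of_mem (Finset.mem_union_left _ hq))

theorem pf_QQ {P : Finset ℕ} {S T : ℕ} : (S * T).primeFactors ⊆ QQ P S T := fun _ hq =>
  Finset.mem_insert_of_mem (Finset.mem_insert_of_mem (Finset.mem_union_right _ hq))

theorem QQ_prime {P : Finset ℕ} (hP : ∀ p ∈ P, Fg p) {S T : ℕ} : ∀ l ∈ QQ P S T, l.Prime := by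
  intro l hl
  unfold QQ at hl
  rcases Finset.mem_insert.1 hl with rfl | hl
  · exact Nat.prime_two
  rcases Finset.mem_insert.1 hl with rfl | hl
  · norm_num
  rcases Finset.mem_union.1 hl with hl | hl
  · exact mem_prime hP hl
  · exact Nat.prime_of_mem_primeFactors hl

theorem dvd_iff' {P : Finset ℕ} {S T : ℕ} (hST : S + T = 3 * pr P) {q : ℕ} (hq : q ∈ insert 3 P) :
    q ∣ S ↔ q ∣ T := by
  have h := mem_dvd hq
  rw [← hST] at h
  exact ⟨fun h1 => (Nat.dvd_add_right h1).1 h, fun h1 => (Nat.dvd_add_left h1).1 h⟩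

theorem term_eq {P : Finset ℕ} (hP : ∀ p ∈ P, Fg p) {S T : ℕ} (hS : S ≠ 0) (hT : T ≠ 0)
    (hST : S + T = 3 * pr P) {a a' : ℕ} (ha : a ∣ S) (ha' : a' ∣ T) :
    (if 2 ∣ a then (if 7 ∣ a' then
      ps3 a a' (S / a) (T / a') * ∏ p ∈ P, psp p a a' (S / a) (T / a') else 0) else 0) =
      ∏ l ∈ QQ P S T, Wl P S T l (a.factorization l) (a'.factorization l) := by
  classical
  have a0 : a ≠ 0 := by rintro rfl; exact hS (zero_dvd_iff.1 ha)
  have b0 : a' ≠ 0 := by rintro rfl; exact hT (zero_dvd_iff.1 ha')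
  have hsa : a.primeFactors ⊆ QQ P S T :=
    (Nat.primeFactors_mono (ha.mul_right T) (mul_ne_zero hS hT)).trans pf_QQ
  have hsb : a'.primeFactors ⊆ QQ P S T :=
    (Nat.primeFactors_mono (ha'.mul_left S) (mul_ne_zero hS hT)).trans pf_QQ
  unfold Wl
  rw [Finset.prod_mul_distrib, Finset.prod_mul_distrib, Finset.prod_mul_distrib]
  have e1 : ∏ l ∈ QQ P S T, Psi P l ^ (a.factorization l + a'.factorization l) = Psi P a * Psi P a' := by
    rw [Psi_fac P (QQ P S T) a a0 hsa, Psi_fac P (QQ P S T) a' b0 hsb, ← Finset.prod_mul_distrib]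
    exact Finset.prod_congr rfl fun l _ => pow_add _ _ _
  have e2 : ∏ l ∈ QQ P S T, (if l ∈ insert 3 P then wq S T l (a.factorization l) (a'.factorization l) else 1) =
      ∏ l ∈ insert 3 P, wq S T l (a.factorization l) (a'.factorization l) := by
    rw [Finset.prod_ite_mem, Finset.inter_eq_right.2 sub_QQ]
  have e3 : ∏ l ∈ QQ P S T, (if l = 2 then (if 1 ≤ a.factorization l then (1 : ℤ) else 0) else 1) =
      if 2 ∣ a then 1 else 0 := by
    rw [Finset.prod_ite_eq' (QQ P S T) 2 (fun l => if 1 ≤ a.factorization l then (1 : ℤ) else 0),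
      if_pos mem_QQ2]
    simp only [dvd_fac Nat.prime_two a0]
  have e4 : ∏ l ∈ QQ P S T, (if l = 7 then (if 1 ≤ a'.factorization l then (1 : ℤ) else 0) else 1) =
      if 7 ∣ a' then 1 else 0 := by
    rw [Finset.prod_ite_eq' (QQ P S T) 7 (fun l => if 1 ≤ a'.factorization l then (1 : ℤ) else 0),
      if_pos mem_QQ7]
    simp only [dvd_fac (by norm_num : Nat.Prime 7) b0]
  rw [e1, e2, e3, e4]
  have e5 : ps3 a a' (S / a) (T / a') * ∏ p ∈ P, psp p a a' (S / a) (T / a') =
      Psi P a * Psi P a' * ∏ l ∈ insert 3 P, wq S T l (a.factorization l) (a'.factorization l) := by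
    have h3 := three_notMem hP
    unfold Psi
    rw [← Finset.prod_mul_distrib, ← Finset.prod_mul_distrib, Finset.prod_insert h3,
      ps3_eq hS hT (dvd_iff' hST (Finset.mem_insert_self _ _)) ha ha']
    congr 1
    exact Finset.prod_congr rfl fun p hp => psp_eq (hP p hp).pr (fne3 (hP p hp)) hS hT
      (dvd_iff' hST (Finset.mem_insert_of_mem hp)) ha ha'
  rw [e5]
  split_ifs <;> simp

theorem WW_eq {P : Finset ℕ} (hP : ∀ p ∈ P, Fg p) {S T : ℕ} (hS : S ≠ 0) (hT : T ≠ 0)
    (hST : S + T = 3 * pr P) :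
    WW P S T = ∏ l ∈ QQ P S T, ∑ i ∈ range (S.factorization l + 1),
      ∑ j ∈ range (T.factorization l + 1), Wl P S T l i j := by
  rw [← sum_local (Wl P S T) (QQ P S T) (QQ_prime hP) S T hS hT
    (fun l hl hd => pf_QQ (Nat.mem_primeFactors.2 ⟨hl, hd.mul_right T, mul_ne_zero hS hT⟩))
    (fun l hl hd => pf_QQ (Nat.mem_primeFactors.2 ⟨hl, hd.mul_left S, mul_ne_zero hS hT⟩))]
  unfold WW Pool.Agent.Z700.WW
  rw [Finset.sum_filter]
  refine Finset.sum_congr rfl fun a ha => ?_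
  rw [Finset.sum_filter]
  have ha1 := Nat.dvd_of_mem_divisors ha
  have h1 : ∀ a' ∈ T.divisors, ∏ l ∈ QQ P S T, Wl P S T l (a.factorization l) (a'.factorization l) =
      (if 2 ∣ a then (if 7 ∣ a' then
      ps3 a a' (S / a) (T / a') * ∏ p ∈ P, psp p a a' (S / a) (T / a') else 0) else 0) :=
    fun a' ha' => (term_eq hP hS hT hST ha1 (Nat.dvd_of_mem_divisors ha')).symm
  rw [Finset.sum_congr rfl h1]
  by_cases h2 : 2 ∣ a
  · simp only [if_pos h2]
  · simp only [if_neg h2, Finset.sum_const_zero]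

theorem fac_m {P : Finset ℕ} (hP : ∀ p ∈ P, Fg p) {l : ℕ} (hl : l ∈ insert 3 P) :
    (3 * pr P).factorization l = 1 := by
  have hp := mem_prime hP hl
  have h0 : 3 * pr P ≠ 0 := mul_ne_zero (by norm_num) (pr_pos hP).ne'
  apply le_antisymm
  · by_contra h
    push Not at h
    have h1 := (hp.pow_dvd_iff_le_factorization h0).2 h
    exact sq_nd hP hl (by rwa [sq] at h1)
  · exact (dvd_fac hp h0).1 (mem_dvd hl)

theorem chp_m {P : Finset ℕ} (hP : ∀ p ∈ P, Fg p) {l : ℕ} (hl : l ∈ insert 3 P) :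
    chp l (3 * pr P) = jacobiSym ((3 * pr P / l : ℕ) : ℤ) l := by
  unfold chp
  rw [fac_m hP hl, pow_one]

theorem hh_eq {P : Finset ℕ} (hP : ∀ p ∈ P, Fg p) {S T l : ℕ} (hS : S ≠ 0) (hT : T ≠ 0)
    (hl : l ∈ insert 3 P) : hh (3 * pr P) (4 * S * T) l =
      ZMod.χ₄ l * (chp l (3 * pr P)) ^ (S.factorization l + T.factorization l) * (chp l S * chp l T) := by
  have hp := mem_prime hP hl
  have h2 : l ≠ 2 := by
    rcases Finset.mem_insert.1 hl with rfl | hl
    · decide
    · exact fne2 (hP l hl)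
  have hodd := hp.odd_of_ne_two h2
  have hsq : chp l (3 * pr P) * chp l (3 * pr P) = 1 :=
    chp_sq hp (mul_ne_zero (by norm_num) (pr_pos hP).ne')
  have hD : jacobiSym ((4 * S * T / l ^ (4 * S * T).factorization l : ℕ) : ℤ) l = chp l S * chp l T :=
    chp_D hp
  unfold hh
  rw [jacobiSym.neg _ hodd, jacobiSym.neg _ hodd, Nat.cast_mul, jacobiSym.mul_left, hD, ← chp_m hP hl,
    ← fac_D hS hT hp h2]
  split_ifs with h
  · obtain ⟨k, hk⟩ := h
    rw [hk, ← two_mul, pow_mul, sq, hsq, one_pow]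
    ring
  · rw [Nat.not_even_iff_odd] at h
    obtain ⟨k, hk⟩ := h
    rw [hk, pow_succ, pow_mul, sq, hsq, one_pow]
    ring

theorem fac3_eq {P : Finset ℕ} (hP : ∀ p ∈ P, Fg p) {S T : ℕ} (hS : S ≠ 0) (hT : T ≠ 0) :
    fac (3 * pr P) (4 * S * T) 3 =
      1 - Psi P 3 ^ (S.factorization 3 + T.factorization 3) * (chp 3 S * chp 3 T) := by
  unfold fac
  rw [if_pos (Dvd.intro _ rfl), hh_eq hP hS hT (Finset.mem_insert_self _ _),
    ZMod.χ₄_nat_three_mod_four (by norm_num : 3 % 4 = 3), ← Psi_three' hP]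
  ring

theorem facp_eq {P : Finset ℕ} (hP : ∀ p ∈ P, Fg p) {S T l : ℕ} (hS : S ≠ 0) (hT : T ≠ 0)
    (hl : l ∈ P) : fac (3 * pr P) (4 * S * T) l =
      1 + Psi P l ^ (S.factorization l + T.factorization l) * (chp l S * chp l T) := by
  have h24 := (hP l hl).m4
  unfold fac
  rw [if_pos (mem_dvd (Finset.mem_insert_of_mem hl)), hh_eq hP hS hT (Finset.mem_insert_of_mem hl),
    ZMod.χ₄_nat_one_mod_four (by omega), ← Psi_p hP hl]
  ring

theorem facg_eq {P : Finset ℕ} (hP : ∀ p ∈ P, Fg p) {S T l : ℕ} (hS : S ≠ 0) (hT : T ≠ 0)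
    (hp : l.Prime) (h2 : l ≠ 2) (hl : l ∉ insert 3 P) : fac (3 * pr P) (4 * S * T) l =
      ∑ j ∈ range (S.factorization l + T.factorization l + 1), Psi P l ^ j := by
  unfold fac
  rw [if_neg (fun h => hl ((prime_dvd_3pr hP hp).1 h)), fac_D hS hT hp h2, Psi_l hP hp h2 hl]

/-! ### the local sums -/

/-- the sum of the local weights -/
def Ls (P : Finset ℕ) (S T l : ℕ) : ℤ :=
  ∑ i ∈ range (S.factorization l + 1), ∑ j ∈ range (T.factorization l + 1), Wl P S T l i j

theorem Ls_two {P : Finset ℕ} (hP : ∀ p ∈ P, Fg p) (hE : Even (inr P).card) {S T : ℕ} (hT : Odd T) :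
    Ls P S T 2 = if Odd (S.factorization 2) then -1 else 0 := by
  have h2 : (2 : ℕ) ∉ insert 3 P := by
    intro h
    rcases Finset.mem_insert.1 h with h | h
    · omega
    · exact fne2 (hP 2 h) rfl
  have hT2 : T.factorization 2 = 0 := Nat.factorization_eq_zero_of_not_dvd (fun h => by
      have := (Nat.odd_iff.1 hT); omega)
  unfold Ls
  rw [hT2, zero_add, ← alt_sum]
  refine Finset.sum_congr rfl fun i _ => ?_
  rw [Finset.sum_range_one]
  unfold Wl
  rw [if_neg h2, if_pos rfl, if_neg (by norm_num : (2 : ℕ) ≠ 7), Psi_two hP hE, add_zero]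
  ring

theorem Ls_seven {P : Finset ℕ} (hP : ∀ p ∈ P, Fg p) (hE : Even (inr P).card) {S T : ℕ} (hS7 : ¬ 7 ∣ S) :
    Ls P S T 7 = (T.factorization 7 : ℤ) := by
  have h7 : (7 : ℕ) ∉ insert 3 P := by
    intro h
    rcases Finset.mem_insert.1 h with h | h
    · omega
    · exact fne7 (hP 7 h) rfl
  unfold Ls
  rw [Nat.factorization_eq_zero_of_not_dvd hS7, zero_add, Finset.sum_range_one, ← one_sum]
  refine Finset.sum_congr rfl fun j _ => ?_
  unfold Wl
  rw [if_neg h7, if_pos rfl, if_neg (by norm_num : (7 : ℕ) ≠ 2), Psi_seven hP hE, one_pow]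
  ring

theorem Ls_gen {P : Finset ℕ} (hP : ∀ p ∈ P, Fg p) {S T : ℕ} (hS : S ≠ 0) (hT : T ≠ 0)
    (hST : S + T = 3 * pr P) {l : ℕ} (hp : l.Prime) (h2 : l ≠ 2) (h7 : l ≠ 7) (hl : l ∉ insert 3 P) :
    Ls P S T l = fac (3 * pr P) (4 * S * T) l := by
  rw [facg_eq hP hS hT hp h2 hl]
  unfold Ls Wl
  simp only [if_neg hl, if_neg h2, if_neg h7, mul_one]
  have h0 : S.factorization l = 0 ∨ T.factorization l = 0 := by
    by_contra h
    push Not at h
    have h1 := (dvd_fac hp hS).2 (by omega)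
    have h2 := (dvd_fac hp hT).2 (by omega)
    exact hl ((prime_dvd_3pr hP hp).1 (hST ▸ dvd_add h1 h2))
  rcases h0 with h0 | h0
  · rw [h0, zero_add, Finset.sum_range_one, zero_add]
    exact Finset.sum_congr rfl fun j _ => by rw [zero_add]
  · rw [h0, zero_add, add_zero]
    exact Finset.sum_congr rfl fun i _ => by rw [Finset.sum_range_one, add_zero]

theorem Ls_three {P : Finset ℕ} (hP : ∀ p ∈ P, Fg p) {S T : ℕ} (hS : S ≠ 0) (hT : T ≠ 0)
    (hST : S + T = 3 * pr P) :
    Ls P S T 3 = if 3 ∣ T then fac (3 * pr P) (4 * S * T) 3 else 1 := by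
  have h3 : (3 : ℕ) ∈ insert 3 P := Finset.mem_insert_self _ _
  have hd := dvd_iff' hST h3
  unfold Ls Wl wq
  simp only [if_pos h3, if_true, if_neg (by norm_num : (3 : ℕ) ≠ 2), if_neg (by norm_num : (3 : ℕ) ≠ 7),
    mul_one]
  by_cases h : 3 ∣ T
  · rw [if_pos h, fac3_eq hP hS hT]
    simp only [if_pos h]
    have s1 := (dvd_fac Nat.prime_three hS).1 (hd.2 h)
    have t1 := (dvd_fac Nat.prime_three hT).1 h
    have k := two_pt (S.factorization 3) (T.factorization 3) 0 0 (S.factorization 3) (T.factorization 3)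
      (Nat.zero_le _) (Nat.zero_le _) le_rfl le_rfl (Or.inl (by omega)) 1 (-(chp 3 S * chp 3 T))
      (fun i j => Psi P 3 ^ (i + j))
    rw [k]
    ring
  · rw [if_neg h]
    simp only [if_neg h]
    rw [Nat.factorization_eq_zero_of_not_dvd h, Nat.factorization_eq_zero_of_not_dvd (fun h1 => h (hd.1 h1))]
    simp

theorem Ls_p {P : Finset ℕ} (hP : ∀ p ∈ P, Fg p) {S T : ℕ} (hS : S ≠ 0) (hT : T ≠ 0)
    (hST : S + T = 3 * pr P) {p : ℕ} (hp : p ∈ P) :
    Ls P S T p = (Psi P p ^ S.factorization p * chp p S) *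
      (if p ∣ T then fac (3 * pr P) (4 * S * T) p else 1) := by
  have hpm : p ∈ insert 3 P := Finset.mem_insert_of_mem hp
  have hd := dvd_iff' hST hpm
  have hpp := (hP p hp).pr
  unfold Ls Wl wq
  simp only [if_pos hpm, if_neg (fne2 (hP p hp)), if_neg (fne3 (hP p hp)), if_neg (fne7 (hP p hp)),
    mul_one]
  by_cases h : p ∣ T
  · rw [if_pos h, facp_eq hP hS hT hp]
    simp only [if_pos h]
    have s1 := (dvd_fac hpp hS).1 (hd.2 h)
    have t1 := (dvd_fac hpp hT).1 h
    rw [two_pt (S.factorization p) (T.factorization p) (S.factorization p) 0 0 (T.factorization p)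
      le_rfl (Nat.zero_le _) (Nat.zero_le _) le_rfl (Or.inl (by omega)) (chp p S) (chp p T)
      (fun i j => Psi P p ^ (i + j))]
    simp only [add_zero, zero_add]
    have c1 := chp_sq hpp hS
    have c2 : Psi P p ^ S.factorization p * Psi P p ^ S.factorization p = 1 := by
      rw [← mul_pow]
      rcases Psi_pm hP hpp.ne_zero with h | h <;> rw [h] <;> norm_num
    rw [pow_add]
    linear_combination (-(Psi P p ^ T.factorization p * chp p T * (chp p S * chp p S))) * c2 -
      (Psi P p ^ T.factorization p * chp p T) * c1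
  · rw [if_neg h]
    simp only [if_neg h]
    rw [Nat.factorization_eq_zero_of_not_dvd h, Nat.factorization_eq_zero_of_not_dvd (fun h1 => h (hd.1 h1))]
    simp only [zero_add, Finset.sum_range_one, pow_zero, one_mul, mul_one]
    rw [chp_nd h, chp_nd (fun h1 => h (hd.1 h1))]
    have hodd := hpp.odd_of_ne_two (fne2 (hP p hp))
    have h24 := (hP p hp).m4
    have e1 : jacobiSym (S : ℤ) p = jacobiSym (-(T : ℤ)) p := by
      apply jacobiSym.mod_left'
      have h3 : (p : ℤ) ∣ (S : ℤ) - (-(T : ℤ)) := by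
        have h4 : (p : ℤ) ∣ ((3 * pr P : ℕ) : ℤ) := Int.natCast_dvd_natCast.2 (mem_dvd hpm)
        rw [← hST] at h4
        push_cast at h4
        rwa [sub_neg_eq_add]
      exact (Int.modEq_iff_dvd.2 h3).symm
    rw [e1, jacobiSym.neg _ hodd, ZMod.χ₄_nat_one_mod_four (by omega), one_mul]

/-! ### the assembly -/

/-- the primes apart from `2` and `7` -/
def Q' (P : Finset ℕ) (S T : ℕ) : Finset ℕ := ((QQ P S T).erase 2).erase 7

theorem mem_Q' {P : Finset ℕ} (hP : ∀ p ∈ P, Fg p) {S T l : ℕ} (h : l ∈ Q' P S T) :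
    l.Prime ∧ l ≠ 2 ∧ l ≠ 7 ∧ (l ∉ insert 3 P → l ∈ (S * T).primeFactors) := by
  unfold Q' at h
  have h1 := Finset.mem_erase.1 h
  have h2 := Finset.mem_erase.1 h1.2
  refine ⟨QQ_prime hP l h2.2, h2.1, h1.1, fun h3 => ?_⟩
  unfold QQ at h2
  rcases Finset.mem_insert.1 h2.2 with h4 | h4
  · exact absurd h4 h2.1
  rcases Finset.mem_insert.1 h4 with h4 | h4
  · exact absurd h4 h1.1
  rcases Finset.mem_union.1 h4 with h4 | h4
  · exact absurd h4 h3
  · exact h4

theorem P_sub_Q' {P : Finset ℕ} (hP : ∀ p ∈ P, Fg p) {S T : ℕ} : P ⊆ Q' P S T := fun p hp =>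
  Finset.mem_erase.2 ⟨fne7 (hP p hp), Finset.mem_erase.2 ⟨fne2 (hP p hp),
    sub_QQ (Finset.mem_insert_of_mem hp)⟩⟩

theorem three_mem_Q' {P : Finset ℕ} {S T : ℕ} : 3 ∈ Q' P S T :=
  Finset.mem_erase.2 ⟨by norm_num, Finset.mem_erase.2 ⟨by norm_num, sub_QQ (Finset.mem_insert_self _ _)⟩⟩

/-- the local factor or one -/
def Ff (P : Finset ℕ) (S T l : ℕ) : ℤ :=
  if l ∈ (4 * S * T).primeFactors then fac (3 * pr P) (4 * S * T) l else 1

theorem mem_D {S T l : ℕ} (hS : S ≠ 0) (hT : T ≠ 0) (hl : l.Prime) (h2 : l ≠ 2) :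
    l ∈ (4 * S * T).primeFactors ↔ l ∣ S ∨ l ∣ T := by
  rw [Nat.mem_primeFactors, mul_assoc, Nat.Prime.dvd_mul hl, Nat.Prime.dvd_mul hl]
  constructor
  · rintro ⟨_, h | h, _⟩
    · exact absurd h (nd4 hl h2)
    · exact h
  · exact fun h => ⟨hl, Or.inr h, mul_ne_zero (by norm_num) (mul_ne_zero hS hT)⟩

/-- the local sums away from `2` and `7` -/
theorem Ls_Q' {P : Finset ℕ} (hP : ∀ p ∈ P, Fg p) {S T : ℕ} (hS : S ≠ 0) (hT : T ≠ 0)
    (hST : S + T = 3 * pr P) {l : ℕ} (hl : l ∈ Q' P S T) :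
    Ls P S T l = (if l ∈ P then Psi P l ^ S.factorization l * chp l S else 1) * Ff P S T l := by
  obtain ⟨hp, h2, h7, hm⟩ := mem_Q' hP hl
  have hD := mem_D hS hT hp h2
  by_cases hlP : l ∈ P
  · have hd := dvd_iff' hST (Finset.mem_insert_of_mem hlP)
    have hD' : l ∈ (4 * S * T).primeFactors ↔ l ∣ T := by rw [hD, hd, or_self]
    rw [if_pos hlP, Ls_p hP hS hT hST hlP]
    unfold Ff
    simp only [hD']
  · rw [if_neg hlP, one_mul]
    rcases eq_or_ne l 3 with rfl | h3
    · have hd := dvd_iff' hST (Finset.mem_insert_self 3 P)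
      have hD' : 3 ∈ (4 * S * T).primeFactors ↔ 3 ∣ T := by rw [hD, hd, or_self]
      rw [Ls_three hP hS hT hST]
      unfold Ff
      simp only [hD']
    · have hn : l ∉ insert 3 P := by
        intro h
        rcases Finset.mem_insert.1 h with h | h
        · exact h3 h
        · exact hlP h
      have h4 : l ∈ (4 * S * T).primeFactors := by
        have h5 := Nat.mem_primeFactors.1 (hm hn)
        exact hD.2 ((Nat.Prime.dvd_mul hp).1 h5.2.1)
      rw [Ls_gen hP hS hT hST hp h2 h7 hn]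
      unfold Ff
      rw [if_pos h4]

/-- the product of the local factors -/
theorem prod_Ff {P : Finset ℕ} {S T : ℕ} (hS : S ≠ 0) (hT : T ≠ 0) :
    ∏ l ∈ Q' P S T, Ff P S T l =
      ∏ l ∈ ((4 * S * T).primeFactors.erase 2).erase 7, fac (3 * pr P) (4 * S * T) l := by
  classical
  unfold Ff
  rw [Finset.prod_ite_mem]
  refine Finset.prod_congr ?_ fun _ _ => rfl
  ext l
  rw [Finset.mem_inter]
  constructor
  · rintro ⟨h1, h2⟩
    unfold Q' at h1
    have h3 := Finset.mem_erase.1 h1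
    have h4 := Finset.mem_erase.1 h3.2
    exact Finset.mem_erase.2 ⟨h3.1, Finset.mem_erase.2 ⟨h4.1, h2⟩⟩
  · intro h
    have h3 := Finset.mem_erase.1 h
    have h4 := Finset.mem_erase.1 h3.2
    refine ⟨?_, h4.2⟩
    unfold Q'
    refine Finset.mem_erase.2 ⟨h3.1, Finset.mem_erase.2 ⟨h4.1, pf_QQ ?_⟩⟩
    have h5 := Nat.prime_of_mem_primeFactors h4.2
    exact Nat.mem_primeFactors.2 ⟨h5, (Nat.Prime.dvd_mul h5).2 ((mem_D hS hT h5 h4.1).1 h4.2),
      mul_ne_zero hS hT⟩

/-- the sign -/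
theorem sign_eq {P : Finset ℕ} (hP : ∀ p ∈ P, Fg p) (hE : Even (inr P).card) {S T : ℕ} (hS : S ≠ 0) (hT : T ≠ 0)
    (hST : S + T = 3 * pr P) (hodd : Odd (S.factorization 2))
    (hF : ∀ l ∈ Q' P S T, Ff P S T l ≠ 0) :
    ∏ l ∈ P, (Psi P l ^ S.factorization l * chp l S) = -(chp 3 S * Psi P 3 ^ S.factorization 3) := by
  classical
  have h3 := three_notMem hP
  have e1 : Psi P S = chp 3 S * ∏ l ∈ P, chp l S := by
    unfold Psi
    rw [Finset.prod_insert h3]
  have hsub : S.primeFactors ⊆ QQ P S T :=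
    (Nat.primeFactors_mono (dvd_mul_right S T) (mul_ne_zero hS hT)).trans pf_QQ
  have e2 : Psi P S = -∏ l ∈ insert 3 P, Psi P l ^ S.factorization l := by
    rw [Psi_fac P (QQ P S T) S hS hsub, ← Finset.mul_prod_erase _ _ (mem_QQ2 (P := P) (S := S) (T := T)),
      Psi_two hP hE, hodd.neg_one_pow,
      ← Finset.mul_prod_erase _ _ (Finset.mem_erase.2 ⟨by norm_num, mem_QQ7 (P := P) (S := S) (T := T)⟩ :
        7 ∈ (QQ P S T).erase 2), Psi_seven hP hE, one_pow, one_mul, neg_one_mul]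
    congr 1
    symm
    have hsub3 : insert 3 P ⊆ Q' P S T := by
      intro q hq
      rcases Finset.mem_insert.1 hq with rfl | hq
      · exact three_mem_Q'
      · exact P_sub_Q' hP hq
    refine Finset.prod_subset hsub3 fun l hl hn => ?_
    obtain ⟨hp, h2, h7, hm⟩ := mem_Q' hP hl
    have hD := mem_D hS hT hp h2
    have h4 : l ∈ (4 * S * T).primeFactors := by
      have h5 := Nat.mem_primeFactors.1 (hm hn)
      exact hD.2 ((Nat.Prime.dvd_mul hp).1 h5.2.1)
    have h5 := hF l hl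
    unfold Ff at h5
    rw [if_pos h4, facg_eq hP hS hT hp h2 hn] at h5
    by_cases hlS : l ∣ S
    · have hT0 : T.factorization l = 0 := by
        apply Nat.factorization_eq_zero_of_not_dvd
        intro h
        exact hn ((prime_dvd_3pr hP hp).1 (hST ▸ dvd_add hlS h))
      rw [hT0, add_zero] at h5
      rcases Psi_pm hP hp.ne_zero with h6 | h6
      · rw [h6, one_pow]
      · rw [h6] at h5 ⊢
        rcases Nat.even_or_odd (S.factorization l) with h7 | h7
        · exact h7.neg_one_pow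
        · exfalso
          apply h5
          obtain ⟨k, hk⟩ := h7
          rw [hk]
          have : ∀ k : ℕ, ∑ j ∈ range (2 * k + 1 + 1), (-1 : ℤ) ^ j = 0 := by
            intro k
            induction k with
            | zero => simp [Finset.sum_range_succ]
            | succ k ih =>
              rw [show 2 * (k + 1) + 1 + 1 = (2 * k + 1 + 1) + 1 + 1 by ring, Finset.sum_range_succ,
                Finset.sum_range_succ, ih, pow_succ (-1 : ℤ) (2 * k + 1 + 1)]
              ring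
          exact this k
    · rw [Nat.factorization_eq_zero_of_not_dvd hlS, pow_zero]
  have c1 := chp_sq Nat.prime_three hS
  have c2 : (∏ l ∈ P, Psi P l ^ S.factorization l) * (∏ l ∈ P, Psi P l ^ S.factorization l) = 1 := by
    rw [← Finset.prod_mul_distrib]
    refine Finset.prod_eq_one fun l hl => ?_
    rw [← mul_pow]
    rcases Psi_pm hP (hP l hl).pr.ne_zero with h | h <;> rw [h] <;> norm_num
  rw [Finset.prod_mul_distrib]
  rw [Finset.prod_insert h3] at e2
  have e4 := e1.symm.trans e2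
  set A := ∏ l ∈ P, Psi P l ^ S.factorization l
  set Bp := ∏ l ∈ P, chp l S
  set c := chp 3 S
  set w := Psi P 3 ^ S.factorization 3
  linear_combination (A * c) * e4 - (A * Bp) * c1 - (c * w) * c2

/-- the weight -/
theorem wt_eq {P : Finset ℕ} (hP : ∀ p ∈ P, Fg p) {S T : ℕ} (hS : S ≠ 0) (hT : T ≠ 0)
    (hST : S + T = 3 * pr P) (hF : Ff P S T 3 ≠ 0) :
    wt (pr P) (pr P) (3 * (pr P : ℤ) - 2 * T) = chp 3 S * Psi P 3 ^ S.factorization 3 := by
  have hd := dvd_iff' hST (Finset.mem_insert_self 3 P)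
  have hm3 : ¬ 3 ∣ pr P := fun h => three_notMem hP ((prime_dvd_pr hP Nat.prime_three).1 h)
  have hPsi : Psi P 3 = chi3 (pr P) := by rw [Psi_three' hP, pr_chp hP]
  have hPsq : Psi P 3 * Psi P 3 = 1 := by
    rcases Psi_pm hP (by norm_num : (3 : ℕ) ≠ 0) with h | h <;> rw [h] <;> norm_num
  unfold wt
  by_cases h : 3 ∣ T
  · have hS3 := hd.2 h
    rw [if_pos (by omega), if_pos rfl]
    unfold Ff at hF
    rw [if_pos ((mem_D hS hT Nat.prime_three (by norm_num)).2 (Or.inr h)), fac3_eq hP hS hT] at hF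
    obtain ⟨S', rfl⟩ := hS3
    obtain ⟨T', rfl⟩ := h
    have h1 : S' + T' = pr P := by omega
    have hS0 : S' ≠ 0 := right_ne_zero_of_mul hS
    have hT0 : T' ≠ 0 := right_ne_zero_of_mul hT
    have fS : (3 * S').factorization 3 = 1 + S'.factorization 3 := by
      rw [Nat.factorization_mul (by norm_num) hS0, Finsupp.add_apply, Nat.prime_three.factorization_self]
    have fT : (3 * T').factorization 3 = 1 + T'.factorization 3 := by
      rw [Nat.factorization_mul (by norm_num) hT0, Finsupp.add_apply, Nat.prime_three.factorization_self]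
    rw [chp_mul, chp_mul, chp_self Nat.prime_three, one_mul, one_mul, fS, fT] at hF
    rw [chp_mul, chp_self Nat.prime_three, one_mul, fS]
    have h2 : (3 * (pr P : ℤ) - 2 * ((3 * T' : ℕ) : ℤ)) / 3 = (pr P : ℤ) - 2 * T' := by
      push_cast; omega
    rw [h2]
    have cS : ¬ 3 ∣ S' → chp 3 S' = chi3 S' := fun h => by rw [chp_nd h, chi3_eq]
    have cT : ¬ 3 ∣ T' → chp 3 T' = chi3 T' := fun h => by rw [chp_nd h, chi3_eq]
    have zS : ¬ 3 ∣ S' → S'.factorization 3 = 0 := Nat.factorization_eq_zero_of_not_dvd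
    have zT : ¬ 3 ∣ T' → T'.factorization 3 = 0 := Nat.factorization_eq_zero_of_not_dvd
    have hchi : ∀ x : ℤ, chi3 x = if x % 3 = 1 then 1 else if x % 3 = 2 then -1 else 0 := fun _ => rfl
    have hmul : (((pr P : ℕ) : ℤ) * ((pr P : ℤ) - 2 * T')) % 3 =
        ((((pr P : ℕ) : ℤ) % 3) * (((pr P : ℤ) - 2 * T') % 3)) % 3 := Int.mul_emod _ _ _
    have hT3 : T' % 3 = 0 ∨ T' % 3 = 1 ∨ T' % 3 = 2 := by omega
    have hmm : pr P % 3 = 1 ∨ pr P % 3 = 2 := by omega
    rcases hmm with hmm | hmm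
    · have m1 : ((pr P : ℕ) : ℤ) % 3 = 1 := by omega
      have hP1 : Psi P 3 = 1 := by rw [hPsi, hchi, if_pos m1]
      rw [hP1, one_pow, one_mul] at hF
      rw [hP1, one_pow, mul_one]
      rcases hT3 with h3 | h3 | h3
      · have d : ¬ 3 ∣ S' := by omega
        rw [cS d, hchi, hchi, hmul, m1, if_pos (by omega : ((S' : ℕ) : ℤ) % 3 = 1), if_pos (by omega)]
      · have h4 : chp 3 T' = 1 := by rw [cT (by omega), hchi, if_pos (by omega)]
        rw [h4, mul_one] at hF
        have h5 : chp 3 S' = -1 := by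
          rcases chp_pm Nat.prime_three hS0 with h5 | h5
          · exact absurd (by rw [h5]; norm_num) hF
          · exact h5
        rw [h5, hchi, hmul, m1, if_neg (by omega), if_pos (by omega)]
      · exfalso
        apply hF
        rw [cS (by omega), cT (by omega), hchi, hchi, if_neg (by omega), if_pos (by omega), if_neg (by omega),
          if_pos (by omega)]
        norm_num
    · have m1 : ((pr P : ℕ) : ℤ) % 3 = 2 := by omega
      have hP1 : Psi P 3 = -1 := by rw [hPsi, hchi, if_neg (by omega), if_pos m1]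
      rw [hP1] at hF ⊢
      rcases hT3 with h3 | h3 | h3
      · have d : ¬ 3 ∣ S' := by omega
        rw [cS d, zS d, hchi, hchi, hmul, m1, if_neg (by omega : ¬ ((S' : ℕ) : ℤ) % 3 = 1),
          if_pos (by omega : ((S' : ℕ) : ℤ) % 3 = 2), if_pos (by omega)]
        norm_num
      · exfalso
        apply hF
        have dS : ¬ 3 ∣ S' := by omega
        have dT : ¬ 3 ∣ T' := by omega
        rw [cS dS, cT dT, zS dS, zT dT, hchi, hchi, if_pos (by omega), if_pos (by omega)]
        norm_num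
      · have dT : ¬ 3 ∣ T' := by omega
        have h4 : chp 3 T' = -1 := by rw [cT dT, hchi, if_neg (by omega), if_pos (by omega)]
        rw [h4, zT dT] at hF
        have h6 : (-1 : ℤ) ^ (1 + S'.factorization 3 + (1 + 0)) = -(-1 : ℤ) ^ (1 + S'.factorization 3) := by
          rw [add_zero, pow_succ]; ring
        rw [h6] at hF
        have h7 : chp 3 S' * (-1 : ℤ) ^ (1 + S'.factorization 3) = -1 := by
          have h8 : chp 3 S' * (-1 : ℤ) ^ (1 + S'.factorization 3) = 1 ∨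
              chp 3 S' * (-1 : ℤ) ^ (1 + S'.factorization 3) = -1 := by
            rcases chp_pm Nat.prime_three hS0 with h5 | h5 <;>
            rcases neg_one_pow_eq_or ℤ (1 + S'.factorization 3) with h9 | h9 <;> rw [h5, h9] <;> norm_num
          rcases h8 with h8 | h8
          · exfalso
            apply hF
            linear_combination (-1 : ℤ) * h8
          · exact h8
        rw [h7, hchi, hmul, m1, if_neg (by omega), if_pos (by omega)]
  · rw [if_neg (by omega), chp_nd (fun h1 => h (hd.1 h1)), ← chi3_eq,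
      Nat.factorization_eq_zero_of_not_dvd (fun h1 => h (hd.1 h1)), pow_zero, mul_one]
    unfold chi3
    have h3 : T % 3 = 1 ∨ T % 3 = 2 := by omega
    rcases h3 with h3 | h3
    · rw [if_pos (by omega), if_neg (by omega), if_pos (by omega)]
    · rw [if_neg (by omega), if_pos (by omega), if_pos (by omega)]
      norm_num

/-- C2 -/
theorem t_C2 : S_C2 := by
  classical
  intro P hG _ T hTo h7T hlt
  have hP : ∀ p ∈ P, Fg p := hG.1
  have hE := hG.2
  have hm := pr_mod hP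
  obtain ⟨S, hSdef⟩ : ∃ S, S = 3 * pr P - T := ⟨_, rfl⟩
  rw [← hSdef]
  have hST : S + T = 3 * pr P := by omega
  have hS : S ≠ 0 := by omega
  have hT : T ≠ 0 := by rintro rfl; exact absurd hTo (by decide)
  have hS7 : ¬ 7 ∣ S := by
    intro h
    have h1 : 7 ∣ 3 * pr P := hST ▸ dvd_add h h7T
    rcases (Nat.Prime.dvd_mul (by norm_num)).1 h1 with h2 | h2
    · norm_num at h2
    · exact seven_nd hP h2
  have e0 : ∀ l, ∑ i ∈ range (S.factorization l + 1), ∑ j ∈ range (T.factorization l + 1), Wl P S T l i j =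
      Ls P S T l := fun l => rfl
  rw [WW_eq hP hS hT hST]
  simp only [e0]
  rw [← Finset.mul_prod_erase _ _ (mem_QQ2 (P := P) (S := S) (T := T)),
    ← Finset.mul_prod_erase _ _ (Finset.mem_erase.2 ⟨by norm_num, mem_QQ7 (P := P) (S := S) (T := T)⟩ :
        7 ∈ (QQ P S T).erase 2), Ls_two hP hE hTo, Ls_seven hP hE hS7]
  have e1 : ∏ l ∈ ((QQ P S T).erase 2).erase 7, Ls P S T l =
      (∏ l ∈ P, (Psi P l ^ S.factorization l * chp l S)) * ∏ l ∈ Q' P S T, Ff P S T l := by
    have e2 : ((QQ P S T).erase 2).erase 7 = Q' P S T := rfl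
    rw [e2, Finset.prod_congr rfl fun l (hl : l ∈ Q' P S T) => Ls_Q' hP hS hT hST hl,
      Finset.prod_mul_distrib, Finset.prod_ite_mem, Finset.inter_eq_right.2 (P_sub_Q' hP)]
  rw [e1]
  unfold loc Pool.Agent.Z700.loc
  have h7D : (4 * S * T).factorization 7 = T.factorization 7 := by
    rw [fac_D hS hT (by norm_num) (by norm_num), Nat.factorization_eq_zero_of_not_dvd hS7, zero_add]
  rw [← prod_Ff hS hT, h7D, fac_D2 hS hTo]
  by_cases hodd : Odd (S.factorization 2)
  · rw [if_pos hodd, if_pos (by obtain ⟨k, hk⟩ := hodd; exact ⟨k + 1, by omega⟩)]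
    by_cases hF : ∀ l ∈ Q' P S T, Ff P S T l ≠ 0
    · rw [sign_eq hP hE hS hT hST hodd hF, wt_eq hP hS hT hST (hF 3 three_mem_Q')]
      ring
    · push Not at hF
      obtain ⟨l, hl, hl0⟩ := hF
      rw [Finset.prod_eq_zero hl hl0]
      ring
  · rw [if_neg hodd, if_neg (by
      intro h
      apply hodd
      obtain ⟨k, hk⟩ := h
      exact ⟨k - 1, by omega⟩)]
    ring

end Pool.Agent.Y949.Z7
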